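import Pool.Agent.Y716.D.Main

/-!
# The Hasse principle for 100% of the Fano complete intersections over the rational numbers

Let `d 1, …, d s ≥ 2` with `d 1 + ⋯ + d s ≤ n`, so that the smooth complete intersections of
hypersurfaces of degrees `d 1, …, d s` in `ℙⁿ` are Fano varieties, and let `n ≥ 3` (this excludes
only the plane conics, so these are all the Fano complete intersections of dimension at least two).
Among the smooth complete intersections `f 1 = ⋯ = f s = 0`, with integral forms of these degrees
with coefficients bounded by `H`, which have points over the real numbers and over all the `p`-adic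
fields, a proportion tending to `1` as `H → ∞` has a rational point.
-/

set_option autoImplicit false

namespace Pool.Agent.Results.MP_03ef3d_ag.RandomCompleteIntersections

/-- The systems of forms of degrees `d j` in `n + 1` variables whose coefficients are integers of
absolute value at most `H`. -/
def Systems {s : ℕ} (d : Fin s → ℕ) (n H : ℕ) : Set (Fin s → MvPolynomial (Fin (n + 1)) ℤ) :=
  {f | ∀ j, (f j).IsHomogeneous (d j) ∧ ∀ m, |(f j).coeff m| ≤ (H : ℤ)}

/-- The forms `f 1, …, f s` define a smooth complete intersection in `ℙⁿ`: at every common zero over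
a field of characteristic zero the Jacobian matrix has rank `s`, that is, no nontrivial linear
combination of the gradients of the forms vanishes there. -/
def Smooth {s n : ℕ} (f : Fin s → MvPolynomial (Fin (n + 1)) ℤ) : Prop :=
  ∀ (K : Type) [Field K] [CharZero K] (x : Fin (n + 1) → K) (l : Fin s → K), x ≠ 0 → l ≠ 0 →
    (∀ j, MvPolynomial.aeval x (f j) = 0) →
    ∃ i, ∑ j, l j * MvPolynomial.aeval x (MvPolynomial.pderiv i (f j)) ≠ 0

/-- The intersection `f 1 = ⋯ = f s = 0` in `ℙⁿ` has a rational point. -/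
def HasRationalPoint {s n : ℕ} (f : Fin s → MvPolynomial (Fin (n + 1)) ℤ) : Prop :=
  ∃ x : Fin (n + 1) → ℚ, x ≠ 0 ∧ ∀ j, MvPolynomial.aeval x (f j) = 0

/-- The intersection `f 1 = ⋯ = f s = 0` in `ℙⁿ` has points over the real numbers and over all the
`p`-adic fields. -/
def LocallySoluble {s n : ℕ} (f : Fin s → MvPolynomial (Fin (n + 1)) ℤ) : Prop :=
  (∃ x : Fin (n + 1) → ℝ, x ≠ 0 ∧ ∀ j, MvPolynomial.aeval x (f j) = 0) ∧
    ∀ (p : ℕ) [Fact p.Prime], ∃ x : Fin (n + 1) → ℚ_[p], x ≠ 0 ∧
      ∀ j, MvPolynomial.aeval x (f j) = 0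

/-- For degrees `d j ≥ 2` with `∑ d j ≤ n` and for `n ≥ 3`, 100% of the everywhere locally soluble
smooth complete intersections of hypersurfaces of degrees `d j` in `ℙⁿ`, ordered by height, have a
rational point. -/
theorem result (s n : ℕ) (d : Fin s → ℕ) (hs : 1 ≤ s) (hd : ∀ j, 2 ≤ d j) (hdn : ∑ j, d j ≤ n)
    (hn : 3 ≤ n) :
    Filter.Tendsto (fun H : ℕ =>
      (({f | f ∈ Systems d n H ∧ Smooth f ∧ HasRationalPoint f} : Set _).ncard : ℝ) /
      (({f | f ∈ Systems d n H ∧ Smooth f ∧ LocallySoluble f} : Set _).ncard : ℝ))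
    Filter.atTop (nhds 1) := by
  obtain ⟨e, he⟩ : ∃ e : Fin s → ℕ, ∀ j, d j = e j + 2 :=
    ⟨fun j => d j - 2, fun j => by have := hd j; dsimp only; omega⟩
  obtain rfl : d = fun j => e j + 2 := funext he
  obtain ⟨h1, h2⟩ := Pool.Agent.Y716.D.dims hs hn hdn
  exact Pool.Agent.Y716.D.hp_smooth_all (Fin (n + 1)) hs h1 e h2

end Pool.Agent.Results.MP_03ef3d_ag.RandomCompleteIntersections
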